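import Mathlib

/-!
# Forcing with countable partial functions adds an enumeration of the reals in type `ω₁`
-/

namespace Pool.Agent.Lib.MP_77d395_lc

open Cardinal

section Clauses

variable {P : Type} [Preorder P]

/-! Truth values of the forcing relation are predicates on the conditions. -/

/-- `p ⊩ φ ↔ ψ` -/
def fIff (φ ψ : P → Prop) : P → Prop := fun p => ∀ q ≤ p, (φ q ↔ ψ q)

/-- `p ⊩ ∀ i, φ i` -/
def fAll {I : Type} (φ : I → P → Prop) : P → Prop := fun p => ∀ i, φ i p

/-- `p ⊩ ∃ i, φ i` -/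
def fEx {I : Type} (φ : I → P → Prop) : P → Prop := fun p => ∀ q ≤ p, ∃ r ≤ q, ∃ i, φ i r

/-- A name for a subset of the ground model set `X`: `mem x p` means `p ⊩ x ∈ S`.  It is inherited
by stronger conditions, and holds at `p` if it holds densely below `p`. -/
structure SetName (P : Type) [Preorder P] (X : Type) where
  mem : X → P → Prop
  mono : ∀ x p q, q ≤ p → mem x p → mem x q
  dense : ∀ x p, (∀ q ≤ p, ∃ r ≤ q, mem x r) → mem x p

end Clauses

/-- The poset of all countable partial functions from `Ω` to the set `2^ℕ` of reals, ordered by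
reverse inclusion. -/
structure Coll (Ω : Type) where
  f : Ω → Option (ℕ → Bool)
  ctbl : {ξ | f ξ ≠ none}.Countable

instance (Ω : Type) : Preorder (Coll Ω) where
  le q p := ∀ ξ r, p.f ξ = some r → q.f ξ = some r
  le_refl _ _ _ h := h
  le_trans _ _ _ h₁ h₂ ξ r h := h₁ ξ r (h₂ ξ r h)

/-- `p ⊩ there is a sequence (E_ξ), ξ ∈ Ω, of subsets of ℕ such that each x ⊆ ℕ is some E_ξ`. -/
def fEnum (P : Type) [Preorder P] (Ω : Type) : P → Prop :=
  fEx fun E : SetName P (Ω × ℕ) => fAll fun x : SetName P ℕ => fEx fun ξ : Ω =>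
    fAll fun n : ℕ => fIff (x.mem n) (E.mem (ξ, n))

namespace Coll

variable {Ω : Type}

/-- extend a condition at a free place -/
theorem exists_insert (q : Coll Ω) (ξ : Ω) (r : ℕ → Bool) (hq : q.f ξ = none) :
    ∃ q' ≤ q, q'.f ξ = some r := by
  classical
  refine ⟨⟨fun η => if η = ξ then some r else q.f η, ?_⟩, ?_, by simp⟩
  · refine (q.ctbl.union (Set.countable_singleton ξ)).mono ?_
    intro η hη
    by_cases h : η = ξ
    · right; exact h
    · left
      simpa [h] using hη
  · intro η s hη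
    have : η ≠ ξ := by
      rintro rfl
      rw [hq] at hη
      cases hη
    simpa [this] using hη

theorem exists_free [Uncountable Ω] (q : Coll Ω) : ∃ ξ, q.f ξ = none := by
  by_contra hcon
  push Not at hcon
  have h : {ξ | q.f ξ ≠ none} = Set.univ := Set.eq_univ_of_forall hcon
  have h2 := q.ctbl
  rw [h] at h2
  exact Set.not_countable_univ h2

/-- the poset is countably closed -/
theorem exists_lower (p : ℕ → Coll Ω) (hp : ∀ n, p (n + 1) ≤ p n) : ∃ q, ∀ n, q ≤ p n := by
  classical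
  have hmono : ∀ m n, m ≤ n → p n ≤ p m := by
    intro m n hmn
    induction n, hmn using Nat.le_induction with
    | base => exact le_rfl
    | succ n _ ih => exact (hp n).trans ih
  refine ⟨⟨fun ξ => if h : ∃ n, (p n).f ξ ≠ none then (p h.choose).f ξ else none, ?_⟩, ?_⟩
  · refine (Set.countable_iUnion fun n => (p n).ctbl).mono ?_
    intro ξ hξ
    by_cases h : ∃ n, (p n).f ξ ≠ none
    · obtain ⟨n, hn⟩ := h
      exact Set.mem_iUnion.2 ⟨n, hn⟩
    · exact absurd (dif_neg h) hξ
  · intro n ξ r hr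
    have h : ∃ n, (p n).f ξ ≠ none := ⟨n, by rw [hr]; simp⟩
    change (if h : ∃ n, (p n).f ξ ≠ none then (p h.choose).f ξ else none) = some r
    rw [dif_pos h]
    have h1 := h.choose_spec
    obtain ⟨s, hs⟩ := Option.ne_none_iff_exists'.1 h1
    rcases le_total h.choose n with h2 | h2
    · have h3 := hmono _ _ h2 ξ s hs
      rw [hr] at h3
      rw [hs, h3]
    · exact hmono _ _ h2 ξ r hr

/-- the reals of the extension are in the ground model -/
theorem exists_decide (x : SetName (Coll Ω) ℕ) (p : Coll Ω) :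
    ∃ q ≤ p, ∃ r : ℕ → Bool, ∀ n, ∀ q' ≤ q, (x.mem n q' ↔ r n = true) := by
  classical
  -- decide one digit
  have hdec : ∀ (n : ℕ) (p : Coll Ω), ∃ q ≤ p, x.mem n q ∨ ∀ q' ≤ q, ¬ x.mem n q' := by
    intro n p
    by_cases h : ∃ q ≤ p, x.mem n q
    · obtain ⟨q, hq, h⟩ := h
      exact ⟨q, hq, Or.inl h⟩
    · push Not at h
      exact ⟨p, le_rfl, Or.inr h⟩
  choose g hg1 hg2 using hdec
  let s : ℕ → Coll Ω := fun n => Nat.rec p (fun n q => g n q) n
  have hs : ∀ n, s (n + 1) = g n (s n) := fun n => rfl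
  obtain ⟨q, hq⟩ := exists_lower s (fun n => by rw [hs]; exact hg1 _ _)
  refine ⟨q, hq 0, fun n => decide (x.mem n q), fun n q' hq' => ?_⟩
  have h1 := hg2 n (s n)
  rw [← hs] at h1
  simp only [decide_eq_true_eq]
  refine ⟨fun h => ?_, fun h => x.mono n q q' hq' h⟩
  rcases h1 with h1 | h1
  · exact x.mono n _ _ (hq (n + 1)) h1
  · exact absurd h (h1 q' (hq'.trans (hq (n + 1))))

/-- the generic sequence of reals -/
def gen [Uncountable Ω] : SetName (Coll Ω) (Ω × ℕ) where
  mem a q := ∃ r, q.f a.1 = some r ∧ r a.2 = true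
  mono := fun a p q hq ⟨r, h1, h2⟩ => ⟨r, hq _ _ h1, h2⟩
  dense := by
    rintro ⟨ξ, n⟩ p h
    cases hc : p.f ξ with
    | none =>
      obtain ⟨q, hq, h'⟩ := exists_insert p ξ (fun _ => false) hc
      obtain ⟨q', hq', r, h1, h2⟩ := h q hq
      have := hq' _ _ h'
      rw [this] at h1
      cases h1
      simp at h2
    | some r =>
      obtain ⟨q, hq, r', h1, h2⟩ := h p le_rfl
      have := hq _ _ hc
      rw [this] at h1
      cases h1
      exact ⟨r, hc ▸ rfl, h2⟩

/-- The countable partial functions from an uncountable set `Ω` to the reals force that the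
reals are enumerated by `Ω`. -/
theorem fEnum [Uncountable Ω] (p : Coll Ω) : fEnum (Coll Ω) Ω p := by
  intro p₁ _
  refine ⟨p₁, le_rfl, gen, fun x q _ => ?_⟩
  obtain ⟨q', hq', r, hr⟩ := exists_decide x q
  obtain ⟨ξ, hξ⟩ := exists_free q'
  obtain ⟨q'', hq'', h⟩ := exists_insert q' ξ r hξ
  refine ⟨q'', hq''.trans hq', ξ, fun n t ht => ?_⟩
  rw [hr n t (ht.trans hq'')]
  constructor
  · exact fun h1 => ⟨r, ht _ _ h, h1⟩
  · rintro ⟨r', h1, h2⟩
    have := ht _ _ h
    rw [this] at h1
    cases h1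
    exact h2

end Coll

/-- a linear order with countable initial segments has at most `ℵ₁` elements -/
theorem mk_le_aleph_one {Ω : Type} [LinearOrder Ω] (h : ∀ ξ : Ω, (Set.Iio ξ).Countable) :
    #Ω ≤ ℵ₁ := by
  by_contra hcon
  rw [not_le] at hcon
  obtain ⟨S, hS⟩ := Cardinal.le_mk_iff_exists_set.1 hcon.le
  have hunb : ∀ b : Ω, ∃ s ∈ S, b < s := by
    intro b
    by_contra hb
    push Not at hb
    have h1 : S.Countable := ((h b).union (Set.countable_singleton b)).mono (by
      intro s hs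
      rcases (hb s hs).lt_or_eq with h2 | h2
      · left; exact h2
      · right; exact h2)
    have h2 : #S ≤ ℵ₀ := Cardinal.mk_le_aleph0_iff.2 h1
    rw [hS] at h2
    exact absurd Cardinal.aleph0_lt_aleph_one (not_lt.2 h2)
  have hcov : (Set.univ : Set Ω) ⊆ ⋃ s : S, Set.Iio (s : Ω) := by
    intro b _
    obtain ⟨s, hs, hb⟩ := hunb b
    exact Set.mem_iUnion.2 ⟨⟨s, hs⟩, hb⟩
  have h1 : #Ω ≤ #S * ℵ₀ := by
    rw [← Cardinal.mk_univ]
    refine (Cardinal.mk_le_mk_of_subset hcov).trans ?_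
    refine (Cardinal.mk_iUnion_le _).trans ?_
    refine mul_le_mul' le_rfl ?_
    exact ciSup_le' fun s => Cardinal.mk_le_aleph0_iff.2 (h s)
  rw [hS, Cardinal.mul_eq_left Cardinal.aleph0_lt_aleph_one.le
    Cardinal.aleph0_lt_aleph_one.le Cardinal.aleph0_ne_zero] at h1
  exact absurd hcon (not_lt.2 h1)

end Pool.Agent.Lib.MP_77d395_lc
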