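import Mathlib

/-!
# Ramsey ultrafilters and ultrafilter sums on `ℕ`
-/

open Filter Set

namespace Pool.Agent.Lib.MP_77d395_lc

/-- `V` is a Ramsey (selective) ultrafilter on `ℕ`: it is nonprincipal and every colouring of the
pairs `m < n` with two colours has a homogeneous set in `V`. -/
def IsRamsey (V : Ultrafilter ℕ) : Prop :=
  (∀ n, V ≠ pure n) ∧ ∀ c : ℕ → ℕ → Prop, ∃ D ∈ V,
    (∀ m ∈ D, ∀ n ∈ D, m < n → c m n) ∨ (∀ m ∈ D, ∀ n ∈ D, m < n → ¬ c m n)

/-- An ultrafilter is Hausdorff if functions which push it to the same ultrafilter agree almost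
everywhere. -/
def Hausd (U : Ultrafilter ℕ) : Prop :=
  ∀ f g : ℕ → ℕ, U.map f = U.map g → ∀ᶠ n in (U : Filter ℕ), f n = g n

/-- The sum of a sequence of ultrafilters with respect to `V`. -/
def sum (V : Ultrafilter ℕ) (U : ℕ → Ultrafilter ℕ) : Ultrafilter ℕ :=
  V.bind fun n => (U n).map (Nat.pair n)

lemma mem_bind {V : Ultrafilter ℕ} {z : ℕ → Ultrafilter ℕ} {s : Set ℕ} :
    s ∈ V.bind z ↔ ∀ᶠ n in (V : Filter ℕ), s ∈ z n := Iff.rfl

lemma gt_mem {V : Ultrafilter ℕ} (hV : ∀ n, V ≠ pure n) (m : ℕ) : {n | m < n} ∈ V := by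
  by_contra h
  have h2 : {n | m < n}ᶜ ∈ V := Ultrafilter.compl_mem_iff_notMem.2 h
  have hfin : ({n | m < n}ᶜ : Set ℕ).Finite := (Set.finite_le_nat m).subset (by
    intro n hn
    simpa using hn)
  obtain ⟨x, -, hx⟩ := Ultrafilter.eq_pure_of_finite_mem hfin h2
  exact hV x hx

lemma bind_congr {V : Ultrafilter ℕ} {z w : ℕ → Ultrafilter ℕ}
    (h : ∀ᶠ n in (V : Filter ℕ), z n = w n) : V.bind z = V.bind w := by
  ext s
  rw [mem_bind, mem_bind]
  constructor
  · intro hs
    filter_upwards [h, hs] with n h1 h2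
    rwa [← h1]
  · intro hs
    filter_upwards [h, hs] with n h1 h2
    rwa [h1]

lemma bind_const {V : Ultrafilter ℕ} (p : Ultrafilter ℕ) : V.bind (fun _ => p) = p := by
  ext s
  rw [mem_bind]
  constructor
  · intro h
    obtain ⟨_, h⟩ := h.exists
    exact h
  · intro h
    exact Eventually.of_forall fun _ => h

lemma bind_pure' (V : Ultrafilter ℕ) : V.bind (fun n => (pure n : Ultrafilter ℕ)) = V := by
  ext s
  rw [mem_bind]
  simp only [Ultrafilter.mem_pure]
  rfl

lemma map_bind (V : Ultrafilter ℕ) (z : ℕ → Ultrafilter ℕ) (f : ℕ → ℕ) :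
    (V.bind z).map f = V.bind fun n => (z n).map f := by
  ext s
  rw [Ultrafilter.mem_map, mem_bind, mem_bind]
  rfl

lemma map_sum (V : Ultrafilter ℕ) (U : ℕ → Ultrafilter ℕ) (F : ℕ → ℕ) :
    (sum V U).map F = V.bind fun n => (U n).map (F ∘ Nat.pair n) := by
  rw [sum, map_bind]
  rfl

lemma exists_sep {p q : Ultrafilter ℕ} (h : p ≠ q) : ∃ s, s ∈ p ∧ s ∉ q := by
  by_contra hcon
  push Not at hcon
  apply h
  ext s
  refine ⟨fun hs => hcon s hs, fun hs => ?_⟩
  by_contra hs'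
  have := hcon _ (Ultrafilter.compl_mem_iff_notMem.2 hs')
  exact (Ultrafilter.compl_mem_iff_notMem.1 this) hs

lemma map_congr {p : Ultrafilter ℕ} {f g : ℕ → ℕ} (h : ∀ᶠ n in (p : Filter ℕ), f n = g n) :
    p.map f = p.map g := by
  ext s
  rw [Ultrafilter.mem_map, Ultrafilter.mem_map]
  constructor
  · intro hs
    filter_upwards [h, hs] with n h1 h2
    change g n ∈ s
    rw [← h1]; exact h2
  · intro hs
    filter_upwards [h, hs] with n h1 h2
    change f n ∈ s
    rw [h1]; exact h2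

lemma map_eq_pure_iff {p : Ultrafilter ℕ} {f : ℕ → ℕ} {n : ℕ} :
    p.map f = pure n ↔ ∀ᶠ k in (p : Filter ℕ), f k = n := by
  constructor
  · intro h
    have : {n} ∈ p.map f := by rw [h]; simp
    exact this
  · intro h
    rw [map_congr (g := fun _ => n) h]
    ext s
    rw [Ultrafilter.mem_map, Ultrafilter.mem_pure]
    by_cases hs : n ∈ s
    · simp only [hs, iff_true]
      exact Filter.mem_of_superset Filter.univ_mem fun _ _ => hs
    · simp only [hs, iff_false]
      intro h'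
      obtain ⟨k, hk⟩ := p.nonempty_of_mem h'
      exact hs hk

variable {V : Ultrafilter ℕ}

lemma IsRamsey.diag (hV : IsRamsey V) (T : ℕ → Set ℕ) (hT : ∀ m, T m ∈ V) :
    ∃ D ∈ V, ∀ m ∈ D, ∀ n ∈ D, m < n → n ∈ T m := by
  obtain ⟨D, hD, h | h⟩ := hV.2 fun m n => n ∈ T m
  · exact ⟨D, hD, h⟩
  · exfalso
    obtain ⟨m, hm⟩ := V.nonempty_of_mem hD
    have h1 : D ∩ T m ∩ {n | m < n} ∈ V :=
      inter_mem (inter_mem hD (hT m)) (gt_mem hV.1 m)
    obtain ⟨n, ⟨hnD, hnT⟩, hmn⟩ := V.nonempty_of_mem h1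
    exact h m hm n hnD hmn hnT

/-- A sequence of ultrafilters is constant or separated almost everywhere with respect to a Ramsey
ultrafilter. -/
lemma IsRamsey.const_or_sep (hV : IsRamsey V) (z : ℕ → Ultrafilter ℕ) :
    (∃ z₀, ∀ᶠ n in (V : Filter ℕ), z n = z₀) ∨
      ∃ π : ℕ → ℕ, ∀ᶠ n in (V : Filter ℕ), (z n).map π = pure n := by
  classical
  set p := V.bind z with hp
  by_cases hc : ∀ᶠ n in (V : Filter ℕ), z n = p
  · exact Or.inl ⟨p, hc⟩
  right
  have hne : ∀ᶠ n in (V : Filter ℕ), z n ≠ p := Ultrafilter.eventually_not.2 hc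
  have hS : ∀ n, ∃ s, z n ≠ p → s ∈ z n ∧ s ∉ p := by
    intro n
    by_cases h : z n = p
    · exact ⟨univ, fun h' => absurd h h'⟩
    · obtain ⟨s, hs⟩ := exists_sep h
      exact ⟨s, fun _ => hs⟩
  choose S hS using hS
  obtain ⟨D, hD, hDT⟩ := hV.diag (fun m => {n | z m ≠ p → S m ∉ z n}) (by
    intro m
    by_cases h : z m = p
    · have : {n | z m ≠ p → S m ∉ z n} = univ := by
        ext n; simp [h]
      rw [this]; exact univ_mem
    · have h1 := (hS m h).2
      rw [hp, mem_bind] at h1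
      have h2 : ∀ᶠ n in (V : Filter ℕ), S m ∉ z n := Ultrafilter.eventually_not.2 h1
      filter_upwards [h2] with n hn _ using hn)
  set E : Set ℕ := D ∩ {n | z n ≠ p} with hE
  have hEV : E ∈ V := inter_mem hD hne
  let π : ℕ → ℕ := fun k => if h : ∃ m, m ∈ E ∧ k ∈ S m then Nat.find h else 0
  refine ⟨π, ?_⟩
  filter_upwards [hEV] with n hn
  rw [map_eq_pure_iff]
  have h1 : ∀ m ∈ E, m < n → ∀ᶠ k in (z n : Filter ℕ), k ∉ S m := by
    intro m hm hmn
    exact Ultrafilter.eventually_not.2 (hDT m hm.1 n hn.1 hmn hm.2)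
  have h2 : ∀ᶠ k in (z n : Filter ℕ), ∀ m ∈ Finset.range n, m ∈ E → k ∉ S m := by
    rw [Filter.eventually_all_finset]
    intro m hm
    by_cases hmE : m ∈ E
    · filter_upwards [h1 m hmE (Finset.mem_range.1 hm)] with k hk _ using hk
    · exact Eventually.of_forall fun k h => absurd h hmE
  have h3 : ∀ᶠ k in (z n : Filter ℕ), k ∈ S n := (hS n hn.2).1
  filter_upwards [h2, h3] with k hk2 hk3
  have hex : ∃ m, m ∈ E ∧ k ∈ S m := ⟨n, hn, hk3⟩
  change (if h : ∃ m, m ∈ E ∧ k ∈ S m then Nat.find h else 0) = n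
  rw [dif_pos hex, Nat.find_eq_iff]
  refine ⟨⟨hn, hk3⟩, fun m hm h => hk2 m (Finset.mem_range.2 hm) h.1 h.2⟩

/-- A map fixing a Ramsey ultrafilter is the identity almost everywhere. -/
lemma IsRamsey.map_fix (hV : IsRamsey V) {σ : ℕ → ℕ} (h : V.map σ = V) :
    ∀ᶠ n in (V : Filter ℕ), σ n = n := by
  by_contra hcon
  have hne : ∀ᶠ n in (V : Filter ℕ), σ n ≠ n := Ultrafilter.eventually_not.2 hcon
  obtain ⟨D, hD, hD1⟩ := hV.2 fun m n => σ n = m
  obtain ⟨D', hD', hD2⟩ := hV.2 fun m n => σ m = n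
  have key : ∀ C ∈ V, ∃ a ∈ C, ∃ b ∈ C, ∃ d ∈ C, a < b ∧ b < d := by
    intro C hC
    obtain ⟨a, ha⟩ := V.nonempty_of_mem hC
    obtain ⟨b, hb, hab⟩ := V.nonempty_of_mem (inter_mem hC (gt_mem hV.1 a))
    obtain ⟨d, hd, hbd⟩ := V.nonempty_of_mem (inter_mem hC (gt_mem hV.1 b))
    exact ⟨a, ha, b, hb, d, hd, hab, hbd⟩
  have h1 : ∀ m ∈ D, ∀ n ∈ D, m < n → σ n ≠ m := by
    rcases hD1 with h' | h'
    · exfalso
      obtain ⟨a, ha, b, hb, d, hd, hab, hbd⟩ := key D hD
      have e1 := h' a ha d hd (hab.trans hbd)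
      have e2 := h' b hb d hd hbd
      omega
    · exact h'
  have h2 : ∀ m ∈ D', ∀ n ∈ D', m < n → σ m ≠ n := by
    rcases hD2 with h' | h'
    · exfalso
      obtain ⟨a, ha, b, hb, d, hd, hab, hbd⟩ := key D' hD'
      have e1 := h' a ha d hd (hab.trans hbd)
      have e2 := h' a ha b hb hab
      omega
    · exact h'
  set E : Set ℕ := D ∩ D' ∩ {n | σ n ≠ n} with hE
  have hEV : E ∈ V := inter_mem (inter_mem hD hD') hne
  have hpre : σ ⁻¹' E ∈ V := by
    rw [← Ultrafilter.mem_map, h]; exact hEV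
  obtain ⟨n, hn, hn'⟩ := V.nonempty_of_mem (inter_mem hEV hpre)
  change σ n ∈ E at hn'
  rcases lt_trichotomy (σ n) n with hlt | heq | hgt
  · exact h1 _ hn'.1.1 _ hn.1.1 hlt rfl
  · exact hn.2 heq
  · exact h2 _ hn.1.2 _ hn'.1.2 hgt rfl

/-- Injectivity of `V`-limits away from maps onto `V`. -/
lemma IsRamsey.bind_inj (hV : IsRamsey V) {z w : ℕ → Ultrafilter ℕ}
    (hz : ∀ n (f : ℕ → ℕ), (z n).map f ≠ V) (hw : ∀ n (f : ℕ → ℕ), (w n).map f ≠ V)
    (h : V.bind z = V.bind w) : ∀ᶠ n in (V : Filter ℕ), z n = w n := by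
  -- both separated by the same map
  have key : ∀ (z w : ℕ → Ultrafilter ℕ), (∀ n (f : ℕ → ℕ), (z n).map f ≠ V) →
      V.bind z = V.bind w →
      ∀ π : ℕ → ℕ, (∀ᶠ n in (V : Filter ℕ), (w n).map π = pure n) →
      ∀ᶠ n in (V : Filter ℕ), (z n).map π = pure n := by
    intro z w hz h π hπ
    have hb : V.bind (fun n => (z n).map π) = V := by
      rw [← map_bind, h, map_bind, bind_congr hπ, bind_pure']
    rcases hV.const_or_sep (fun n => (z n).map π) with ⟨v₀, hv₀⟩ | ⟨ρ, hρ⟩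
    · exfalso
      rw [bind_congr hv₀, bind_const] at hb
      obtain ⟨n, hn⟩ := hv₀.exists
      exact hz n π (hn.trans hb)
    · have h1 : V.map ρ = V := by
        conv_lhs => rw [← hb]
        rw [map_bind, bind_congr hρ, bind_pure']
      have h2 := hV.map_fix h1
      have h3 : {n | ρ n = n} ∈ V.bind (fun n => (z n).map π) := by
        rw [hb]; exact h2
      rw [mem_bind] at h3
      filter_upwards [h3, hρ] with n h4 h5
      rw [← h5]
      have h6 : ((z n).map π).map ρ = ((z n).map π).map id := map_congr h4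
      rw [h6, Ultrafilter.map_id]
  rcases hV.const_or_sep z with ⟨z₀, hz₀⟩ | ⟨π, hπ⟩
  · rcases hV.const_or_sep w with ⟨w₀, hw₀⟩ | ⟨π, hπ⟩
    · rw [bind_congr hz₀, bind_congr hw₀, bind_const, bind_const] at h
      filter_upwards [hz₀, hw₀] with n h1 h2
      rw [h1, h2, h]
    · exfalso
      rw [bind_congr hz₀, bind_const] at h
      obtain ⟨n, hn⟩ := hz₀.exists
      apply hz n π
      rw [hn, h, map_bind, bind_congr hπ, bind_pure']
  · have hπw := key w z hw h.symm π hπ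
    by_contra hcon
    have hne : ∀ᶠ n in (V : Filter ℕ), z n ≠ w n := Ultrafilter.eventually_not.2 hcon
    have hE : ∀ n, ∃ s, z n ≠ w n → s ∈ z n ∧ s ∉ w n := by
      intro n
      by_cases h : z n = w n
      · exact ⟨univ, fun h' => absurd h h'⟩
      · obtain ⟨s, hs⟩ := exists_sep h
        exact ⟨s, fun _ => hs⟩
    choose E hE using hE
    have h1 : {k | k ∈ E (π k)} ∈ V.bind z := by
      rw [mem_bind]
      filter_upwards [hπ, hne] with n h1 h2
      rw [map_eq_pure_iff] at h1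
      filter_upwards [h1, (hE n h2).1] with k hk1 hk2
      rw [hk1]; exact hk2
    have h2 : {k | k ∉ E (π k)} ∈ V.bind w := by
      rw [mem_bind]
      filter_upwards [hπw, hne] with n h1 h2
      rw [map_eq_pure_iff] at h1
      have h3 : ∀ᶠ k in (w n : Filter ℕ), k ∉ E n := Ultrafilter.eventually_not.2 (hE n h2).2
      filter_upwards [h1, h3] with k hk1 hk2
      rw [hk1]; exact hk2
    rw [← h] at h2
    obtain ⟨k, hk1, hk2⟩ := (V.bind z).nonempty_of_mem (inter_mem h1 h2)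
    exact hk2 hk1

/-- The sum of Hausdorff ultrafilters with respect to a Ramsey ultrafilter which is not a map of
any of them is Hausdorff. -/
theorem IsRamsey.hausd_sum (hV : IsRamsey V) {U : ℕ → Ultrafilter ℕ} (hU : ∀ n, Hausd (U n))
    (hav : ∀ n (f : ℕ → ℕ), (U n).map f ≠ V) : Hausd (sum V U) := by
  intro F G hFG
  rw [map_sum, map_sum] at hFG
  have h := hV.bind_inj (z := fun n => (U n).map (F ∘ Nat.pair n))
    (w := fun n => (U n).map (G ∘ Nat.pair n))
    (fun n f => by rw [Ultrafilter.map_map]; exact hav n _)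
    (fun n f => by rw [Ultrafilter.map_map]; exact hav n _) hFG
  change {k | F k = G k} ∈ sum V U
  rw [sum, mem_bind]
  filter_upwards [h] with n hn
  exact hU n _ _ hn

end Pool.Agent.Lib.MP_77d395_lc
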