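import Mathlib
import Pool.Agent.Lib.MP_77d395_lc.Ramsey

/-!
# Towers of length `ω₁` and Ramsey ultrafilters under the continuum hypothesis
-/

open Filter Set Cardinal

namespace Pool.Agent.Lib.MP_77d395_lc

section Seq

variable {ι : Type} [LinearOrder ι]

/-- A countable nonempty initial segment has a monotone sequence which is cofinal in the weak
sense. -/
lemma exists_cofinal (i : ι) (hc : (Iio i).Countable) (hne : (Iio i).Nonempty) :
    ∃ c : ℕ → ι, (∀ n, c n < i) ∧ Monotone c ∧ ∀ j < i, ∃ N, ∀ n, N ≤ n → j ≤ c n := by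
  obtain ⟨e, he⟩ := hc.exists_eq_range hne
  have hei : ∀ n, e n < i := fun n => by
    have : e n ∈ Iio i := by rw [he]; exact mem_range_self n
    exact this
  refine ⟨fun n => partialSups e n, ?_, (partialSups e).monotone, ?_⟩
  · intro n
    obtain ⟨m, -, hm⟩ := exists_partialSups_eq e n
    change partialSups e n < i
    rw [hm]; exact hei m
  · intro j hj
    have : j ∈ range e := by rw [← he]; exact hj
    obtain ⟨N, rfl⟩ := this
    exact ⟨N, fun n hn => le_partialSups_of_le e hn⟩

end Seq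

/-- The order type `ω₁`. -/
lemma exists_omega_one : ∃ (ι : Type) (_ : LinearOrder ι) (_ : WellFoundedLT ι),
    (∀ i : ι, (Iio i).Countable) ∧ #ι = ℵ₁ := by
  refine ⟨(ℵ₁ : Cardinal.{0}).ord.ToType, inferInstance, inferInstance, fun i => ?_,
    Cardinal.mk_ord_toType _⟩
  have h := Cardinal.mk_Iio_lt i (by rw [Cardinal.mk_ord_toType, Ordinal.type_toType])
  rw [Cardinal.mk_ord_toType] at h
  rw [← Cardinal.le_aleph0_iff_set_countable]
  generalize #(Iio i) = κ at h
  rw [← Cardinal.succ_aleph0] at h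
  exact Order.lt_succ_iff.1 h

/-- Generic construction of a decreasing tower through dense sets. -/
lemma exists_tower {ι : Type} [LinearOrder ι] [WellFoundedLT ι] (hι : ∀ i : ι, (Iio i).Countable)
    {P : Type} [Nonempty P] (r : P → P → Prop) (hrefl : ∀ a, r a a)
    (htrans : ∀ a b c, r a b → r b c → r a c)
    (hclosed : ∀ s : ℕ → P, (∀ m n, m ≤ n → r (s n) (s m)) → ∃ q, ∀ n, r q (s n))
    (D : ι → Set P) (hD : ∀ i p, ∃ q ∈ D i, r q p) :
    ∃ A : ι → P, (∀ i j, j ≤ i → r (A i) (A j)) ∧ ∀ i, A i ∈ D i := by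
  classical
  let p₀ : P := Classical.arbitrary P
  let step : ∀ i : ι, (∀ j, j < i → P) → P := fun i prev =>
    if h : ∃ q, (∀ j hj, r q (prev j hj)) ∧ q ∈ D i then h.choose else p₀
  let A : ι → P := (wellFounded_lt (α := ι)).fix step
  have hA : ∀ i, A i = step i fun j _ => A j := fun i => WellFounded.fix_eq _ _ _
  have key : ∀ i, (∀ j, j < i → r (A i) (A j)) ∧ A i ∈ D i := by
    intro i
    induction i using WellFoundedLT.induction with
    | ind i ih =>
      have hex : ∃ q, (∀ j (_ : j < i), r q (A j)) ∧ q ∈ D i := by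
        rcases (Iio i).eq_empty_or_nonempty with he | hne
        · obtain ⟨q, hq, -⟩ := hD i p₀
          refine ⟨q, fun j hj => ?_, hq⟩
          exact absurd (show j ∈ Iio i from hj) (by rw [he]; exact notMem_empty j)
        · obtain ⟨c, hci, hcm, hcf⟩ := exists_cofinal i (hι i) hne
          have hdec : ∀ m n, m ≤ n → r (A (c n)) (A (c m)) := by
            intro m n hmn
            rcases (hcm hmn).lt_or_eq with hlt | heq
            · exact (ih (c n) (hci n)).1 _ hlt
            · rw [heq]; exact hrefl _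
          obtain ⟨q, hq⟩ := hclosed (fun n => A (c n)) hdec
          obtain ⟨q', hq'D, hq'⟩ := hD i q
          refine ⟨q', fun j hj => ?_, hq'D⟩
          obtain ⟨N, hN⟩ := hcf j hj
          have h1 : r (A (c N)) (A j) := by
            rcases (hN N le_rfl).lt_or_eq with hlt | heq
            · exact (ih (c N) (hci N)).1 _ hlt
            · rw [heq]; exact hrefl _
          exact htrans _ _ _ hq' (htrans _ _ _ (hq N) h1)
      have hAi : A i = hex.choose := by
        rw [hA]
        exact dif_pos hex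
      rw [hAi]
      exact hex.choose_spec
  refine ⟨A, fun i j hj => ?_, fun i => (key i).2⟩
  rcases hj.lt_or_eq with hlt | heq
  · exact (key i).1 j hlt
  · rw [heq]; exact hrefl _

/-! ### Infinite subsets of `ℕ` modulo finite sets -/

/-- A pseudo-intersection of a decreasing sequence. -/
lemma exists_pseudo (s : ℕ → Set ℕ) (hinf : ∀ n, (s n).Infinite)
    (hdec : ∀ m n, m ≤ n → (s n \ s m).Finite) :
    ∃ q : Set ℕ, q.Infinite ∧ ∀ n, (q \ s n).Finite := by
  have hI : ∀ n, (⋂ m ∈ Finset.range (n + 1), s m).Infinite := by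
    intro n
    have h1 : (⋃ m ∈ Finset.range (n + 1), (s n \ s m)).Finite := by
      apply Set.Finite.biUnion (Finset.finite_toSet _)
      intro m hm
      exact hdec m n (Nat.lt_succ_iff.1 (Finset.mem_range.1 hm))
    refine ((hinf n).sdiff h1).mono ?_
    rintro x ⟨hx, hx'⟩
    simp only [mem_iInter]
    intro m hm
    by_contra hcon
    exact hx' (by
      simp only [mem_iUnion]
      exact ⟨m, hm, hx, hcon⟩)
  have hstep : ∀ n x, ∃ y, x < y ∧ y ∈ ⋂ m ∈ Finset.range (n + 1), s m := by
    intro n x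
    obtain ⟨y, hy, hxy⟩ := (hI n).exists_gt x
    exact ⟨y, hxy, hy⟩
  choose f hf using hstep
  let x : ℕ → ℕ := fun n => Nat.rec 0 (fun n a => f n a) n
  have hx : ∀ n, x (n + 1) = f n (x n) := fun n => rfl
  have hlt : StrictMono x := strictMono_nat_of_lt_succ fun n => by
    rw [hx]; exact (hf n (x n)).1
  refine ⟨range fun n => x (n + 1), ?_, fun n => ?_⟩
  · apply Set.infinite_range_of_injective
    intro a b hab
    have h1 : a + 1 = b + 1 := hlt.injective hab
    omega
  · refine (Set.finite_range fun m : Fin n => x (m + 1)).subset ?_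
    rintro _ ⟨⟨m, rfl⟩, hm⟩
    by_cases hmn : m < n
    · exact ⟨⟨m, hmn⟩, rfl⟩
    · exfalso
      apply hm
      have h1 := (hf m (x m)).2
      rw [← hx] at h1
      simp only [mem_iInter] at h1
      exact h1 n (Finset.mem_range.2 (by omega))

/-- Ramsey's theorem for pairs, inside an infinite set. -/
lemma exists_homog (c : ℕ → ℕ → Prop) (A : Set ℕ) (hA : A.Infinite) :
    ∃ B ⊆ A, B.Infinite ∧
      ((∀ m ∈ B, ∀ n ∈ B, m < n → c m n) ∨ (∀ m ∈ B, ∀ n ∈ B, m < n → ¬ c m n)) := by
  classical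
  have hne : (cofinite ⊓ 𝓟 A : Filter ℕ).NeBot := by
    rw [Filter.cofinite_inf_principal_neBot_iff]; exact hA
  let W : Ultrafilter ℕ := Ultrafilter.of (cofinite ⊓ 𝓟 A)
  have hW : (W : Filter ℕ) ≤ cofinite ⊓ 𝓟 A := Ultrafilter.of_le _
  have hWA : A ∈ W := hW (mem_inf_of_right (mem_principal_self A))
  have hWgt : ∀ m, {n | m < n} ∈ W := by
    intro m
    apply hW
    apply mem_inf_of_left
    rw [mem_cofinite]
    refine (Set.finite_le_nat m).subset ?_
    intro n hn
    simpa using hn
  have key : ∀ c : ℕ → ℕ → Prop, (A ∩ {m | {n | c m n} ∈ W}) ∈ W →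
      ∃ B ⊆ A, B.Infinite ∧ ∀ m ∈ B, ∀ n ∈ B, m < n → c m n := by
    intro c hc
    obtain ⟨f, hf1, hf2⟩ := exists_seq_of_forall_finset_exists
      (fun x => x ∈ A ∩ {m | {n | c m n} ∈ W}) (fun x y => x < y ∧ c x y) (by
        intro s hs
        have h1 : (⋂ x ∈ s, ({n | x < n} ∩ {n | c x n})) ∈ (W : Filter ℕ) := by
          rw [Filter.biInter_finset_mem]
          intro x hx
          exact inter_mem (hWgt x) (hs x hx).2
        obtain ⟨y, hy1, hy2⟩ := W.nonempty_of_mem (inter_mem hc h1)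
        refine ⟨y, hy1, fun x hx => ?_⟩
        simp only [mem_iInter] at hy2
        exact hy2 x hx)
    have hmono : StrictMono f := fun a b hab => (hf2 a b hab).1
    refine ⟨range f, ?_, infinite_range_of_injective hmono.injective, ?_⟩
    · rintro _ ⟨n, rfl⟩
      exact (hf1 n).1
    · rintro _ ⟨a, rfl⟩ _ ⟨b, rfl⟩ hab
      exact (hf2 a b (hmono.lt_iff_lt.1 hab)).2
  by_cases h : {m | {n | c m n} ∈ W} ∈ W
  · obtain ⟨B, h1, h2, h3⟩ := key c (inter_mem hWA h)
    exact ⟨B, h1, h2, Or.inl h3⟩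
  · have h' : {m | {n | ¬ c m n} ∈ W} ∈ W := by
      have h2 := Ultrafilter.compl_mem_iff_notMem.2 h
      filter_upwards [h2] with m hm
      exact Ultrafilter.compl_mem_iff_notMem.2 hm
    obtain ⟨B, h1, h2, h3⟩ := key (fun m n => ¬ c m n) (inter_mem hWA h')
    exact ⟨B, h1, h2, Or.inr h3⟩

/-- An infinite set has an infinite subset which is not in a given ultrafilter. -/
lemma exists_notMem (p : Ultrafilter ℕ) (A : Set ℕ) (hA : A.Infinite) :
    ∃ B ⊆ A, B.Infinite ∧ B ∉ p := by
  let e := hA.natEmbedding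
  let B : Set ℕ := range fun n => (e (2 * n) : ℕ)
  let B' : Set ℕ := range fun n => (e (2 * n + 1) : ℕ)
  have hB : B.Infinite := infinite_range_of_injective fun a b hab => by
    have := e.injective (Subtype.ext hab)
    omega
  have hB' : B'.Infinite := infinite_range_of_injective fun a b hab => by
    have := e.injective (Subtype.ext hab)
    omega
  have hdisj : Disjoint B B' := by
    rw [Set.disjoint_left]
    rintro _ ⟨a, rfl⟩ ⟨b, hb⟩
    have := e.injective (Subtype.ext hb)
    omega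
  by_cases h : B ∈ p
  · refine ⟨B', ?_, hB', fun h' => ?_⟩
    · rintro _ ⟨a, rfl⟩
      exact (e (2 * a + 1)).2
    · obtain ⟨x, hx, hx'⟩ := p.nonempty_of_mem (inter_mem h h')
      exact Set.disjoint_left.1 hdisj hx hx'
  · refine ⟨B, ?_, hB, h⟩
    rintro _ ⟨a, rfl⟩
    exact (e (2 * a)).2

/-- Under the continuum hypothesis there is a Ramsey ultrafilter which is not a map of any of
countably many given ultrafilters. -/
theorem exists_ramsey_avoiding (hCH : (ℵ₁ : Cardinal.{0}) = 𝔠) (z : ℕ → Ultrafilter ℕ) :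
    ∃ V : Ultrafilter ℕ, IsRamsey V ∧ ∀ n (f : ℕ → ℕ), (z n).map f ≠ V := by
  classical
  obtain ⟨ι, _, _, hι, hιc⟩ := exists_omega_one
  have hne : Nonempty ι := by
    rw [← Cardinal.mk_ne_zero_iff, hιc]
    exact (Cardinal.aleph_pos 1).ne'
  let R : Type := (ℕ → ℕ → Prop) ⊕ (ℕ × (ℕ → ℕ))
  have hR : #R ≤ #ι := by
    rw [hιc, hCH]
    have e1 : #(ℕ → ℕ → Prop) = 𝔠 := by
      rw [← Cardinal.mk_congr (Equiv.curry ℕ ℕ Prop)]
      simp
    have e2 : #(ℕ → ℕ) = 𝔠 := by simp
    rw [Cardinal.mk_sum, Cardinal.mk_prod, e1, e2]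
    simp
  obtain ⟨e, he⟩ : ∃ e : ι → R, Function.Surjective e := by
    have : Nonempty R := ⟨Sum.inl fun _ _ => True⟩
    obtain ⟨g⟩ : Nonempty (R ↪ ι) := hR
    exact ⟨Function.invFun g, Function.invFun_surjective g.injective⟩
  let P : Type := {A : Set ℕ // A.Infinite}
  let D : ι → Set P := fun i => match e i with
    | Sum.inl c => {A | (∀ m ∈ A.1, ∀ n ∈ A.1, m < n → c m n) ∨
        (∀ m ∈ A.1, ∀ n ∈ A.1, m < n → ¬ c m n)}
    | Sum.inr q => {A | A.1 ∉ (z q.1).map q.2}
  have : Nonempty P := ⟨⟨univ, infinite_univ⟩⟩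
  obtain ⟨A, hA1, hA2⟩ := exists_tower (ι := ι) hι (P := P) (fun a b => (a.1 \ b.1).Finite)
    (fun a => by simp) (fun a b c hab hbc => by
      refine (hab.union hbc).subset ?_
      rintro x ⟨hx, hx'⟩
      by_cases h : x ∈ b.1
      · exact Or.inr ⟨h, hx'⟩
      · exact Or.inl ⟨hx, h⟩)
    (fun s hs => by
      obtain ⟨q, hq, hq'⟩ := exists_pseudo (fun n => (s n).1) (fun n => (s n).2) hs
      exact ⟨⟨q, hq⟩, hq'⟩)
    D (by
      intro i p
      have : ∀ r : R, e i = r → ∃ q ∈ D i, (q.1 \ p.1).Finite := by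
        intro r hr
        rcases r with c | q
        · obtain ⟨B, hBA, hB, hBc⟩ := exists_homog c p.1 p.2
          refine ⟨⟨B, hB⟩, ?_, ?_⟩
          · simp only [D, hr]
            exact hBc
          · rw [Set.sdiff_eq_empty.2 hBA]
            exact finite_empty
        · obtain ⟨B, hBA, hB, hBc⟩ := exists_notMem ((z q.1).map q.2) p.1 p.2
          refine ⟨⟨B, hB⟩, ?_, ?_⟩
          · simp only [D, hr]
            exact hBc
          · rw [Set.sdiff_eq_empty.2 hBA]
            exact finite_empty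
      exact this _ rfl)
  -- the generated filter
  let F : Filter ℕ :=
    { sets := {s | ∃ i, ((A i).1 \ s).Finite}
      univ_sets := by
        exact ⟨Classical.arbitrary ι, by simp⟩
      sets_of_superset := by
        rintro s t ⟨i, hi⟩ hst
        exact ⟨i, hi.subset (sdiff_subset_sdiff_right hst)⟩
      inter_sets := by
        rintro s t ⟨i, hi⟩ ⟨j, hj⟩
        rcases le_total i j with hij | hij
        · refine ⟨j, ((hA1 j i hij).union (hi.union hj)).subset ?_⟩
          rintro x ⟨hx, hx'⟩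
          by_cases h : x ∈ (A i).1
          · right
            by_cases h2 : x ∈ s
            · exact Or.inr ⟨hx, fun h3 => hx' ⟨h2, h3⟩⟩
            · exact Or.inl ⟨h, h2⟩
          · exact Or.inl ⟨hx, h⟩
        · refine ⟨i, ((hA1 i j hij).union (hi.union hj)).subset ?_⟩
          rintro x ⟨hx, hx'⟩
          by_cases h : x ∈ (A j).1
          · right
            by_cases h2 : x ∈ t
            · exact Or.inl ⟨hx, fun h3 => hx' ⟨h3, h2⟩⟩
            · exact Or.inr ⟨h, h2⟩
          · exact Or.inl ⟨hx, h⟩ }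
  have hF : F.NeBot := by
    refine ⟨fun h => ?_⟩
    have h1 : ∅ ∈ F := by rw [h]; exact mem_bot
    obtain ⟨i, hi⟩ := h1
    rw [sdiff_empty] at hi
    exact (A i).2 hi
  let V : Ultrafilter ℕ := Ultrafilter.of F
  have hVF : (V : Filter ℕ) ≤ F := Ultrafilter.of_le _
  have hAV : ∀ i, (A i).1 ∈ V := fun i => hVF ⟨i, by simp⟩
  have hne : ∀ n, V ≠ pure n := by
    intro n hn
    have h1 : ({n}ᶜ : Set ℕ) ∈ V := by
      apply hVF
      refine ⟨Classical.arbitrary ι, (finite_singleton n).subset ?_⟩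
      rintro x ⟨-, hx⟩
      simpa using hx
    rw [hn, Ultrafilter.mem_pure] at h1
    exact h1 rfl
  refine ⟨V, ⟨hne, fun c => ?_⟩, fun n f hf => ?_⟩
  · obtain ⟨i, hi⟩ := he (Sum.inl c)
    refine ⟨(A i).1, hAV i, ?_⟩
    have := hA2 i
    simp only [D, hi] at this
    exact this
  · obtain ⟨i, hi⟩ := he (Sum.inr (n, f))
    have := hA2 i
    simp only [D, hi] at this
    apply this
    rw [hf]
    exact hAV i

end Pool.Agent.Lib.MP_77d395_lc
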