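import Mathlib
import Pool.Agent.Lib.MP_77d395_lc.Ramsey
import Pool.Agent.Lib.MP_77d395_lc.Tower

/-!
# An `ω₁`-chain of Hausdorff ultrafilters
-/

open Filter Set Cardinal

namespace Pool.Agent.Lib.MP_77d395_lc

/-- The Rudin-Keisler order. -/
def RK (p q : Ultrafilter ℕ) : Prop := ∃ f : ℕ → ℕ, q.map f = p

lemma RK.refl (p : Ultrafilter ℕ) : RK p p := ⟨id, Ultrafilter.map_id p⟩

lemma RK.trans {p q r : Ultrafilter ℕ} (h1 : RK p q) (h2 : RK q r) : RK p r := by
  obtain ⟨f, rfl⟩ := h1
  obtain ⟨g, rfl⟩ := h2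
  exact ⟨f ∘ g, by rw [Ultrafilter.map_map]⟩

lemma RK.map {p q : Ultrafilter ℕ} (h : RK p q) (f : ℕ → ℕ) : RK (p.map f) q := by
  obtain ⟨g, rfl⟩ := h
  exact ⟨f ∘ g, by rw [Ultrafilter.map_map]⟩

lemma Hausd.map {p : Ultrafilter ℕ} (h : Hausd p) (f : ℕ → ℕ) : Hausd (p.map f) := by
  intro g k hgk
  rw [Ultrafilter.map_map, Ultrafilter.map_map] at hgk
  exact h _ _ hgk

lemma Hausd.of_RK {p q : Ultrafilter ℕ} (h : Hausd q) (hpq : RK p q) : Hausd p := by
  obtain ⟨f, rfl⟩ := hpq
  exact h.map f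

lemma hausd_pure (a : ℕ) : Hausd (pure a) := by
  intro f g h
  rw [Ultrafilter.map_pure, Ultrafilter.map_pure] at h
  have h1 : f a = g a := Ultrafilter.pure_injective h
  change {n | f n = g n} ∈ (pure a : Ultrafilter ℕ)
  rw [Ultrafilter.mem_pure]
  exact h1

/-- A limit of ultrafilters below the summands is below the sum. -/
lemma RK_bind {V : Ultrafilter ℕ} {z w : ℕ → Ultrafilter ℕ}
    (h : ∀ᶠ n in (V : Filter ℕ), RK (w n) (z n)) : RK (V.bind w) (sum V z) := by
  classical
  have hg : ∀ n, ∃ g : ℕ → ℕ, RK (w n) (z n) → (z n).map g = w n := by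
    intro n
    by_cases hn : RK (w n) (z n)
    · obtain ⟨g, hg⟩ := hn
      exact ⟨g, fun _ => hg⟩
    · exact ⟨id, fun h => absurd h hn⟩
  choose g hg using hg
  refine ⟨fun k => g k.unpair.1 k.unpair.2, ?_⟩
  rw [map_sum]
  apply bind_congr
  filter_upwards [h] with n hn
  rw [← hg n hn]
  congr 1
  funext k
  simp

/-- The base is below the sum. -/
lemma RK_base {V : Ultrafilter ℕ} {z : ℕ → Ultrafilter ℕ} : RK V (sum V z) := by
  have h := RK_bind (V := V) (z := z) (w := fun n => (pure n : Ultrafilter ℕ))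
    (Eventually.of_forall fun n => ⟨fun _ => n, by
      rw [map_eq_pure_iff]
      exact Eventually.of_forall fun _ => rfl⟩)
  rwa [bind_pure'] at h

/-- Under the continuum hypothesis there is an increasing `ω₁`-chain of Hausdorff ultrafilters such
that each limit of a sequence bounded in the chain is again below the chain. -/
theorem exists_chain (hCH : (ℵ₁ : Cardinal.{0}) = 𝔠) {ι : Type} [LinearOrder ι]
    [WellFoundedLT ι] (hι : ∀ i : ι, (Iio i).Countable) :
    ∃ U : ι → Ultrafilter ℕ, (∀ i, Hausd (U i)) ∧ (∀ i j, j ≤ i → RK (U j) (U i)) ∧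
      ∀ i, (Iio i).Nonempty → ∃ V : Ultrafilter ℕ, (∀ n, V ≠ pure n) ∧ RK V (U i) ∧
        ∀ (W : ℕ → Ultrafilter ℕ) (j : ι), j < i → (∀ n, RK (W n) (U j)) →
          RK (V.bind W) (U i) := by
  classical
  choose Vof hV1 hV2 using exists_ramsey_avoiding hCH
  have hcof : ∀ i : ι, ∃ c : ℕ → ι, (Iio i).Nonempty → (∀ n, c n < i) ∧ Monotone c ∧
      ∀ j < i, ∃ N, ∀ n, N ≤ n → j ≤ c n := by
    intro i
    by_cases hne : (Iio i).Nonempty
    · obtain ⟨c, hc⟩ := exists_cofinal i (hι i) hne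
      exact ⟨c, fun _ => hc⟩
    · exact ⟨fun _ => i, fun h => absurd h hne⟩
  choose c hc using hcof
  let step : ∀ i : ι, (∀ j, j < i → Ultrafilter ℕ) → Ultrafilter ℕ := fun i prev =>
    if h : (Iio i).Nonempty then
      sum (Vof fun n => prev (c i n) ((hc i h).1 n)) fun n => prev (c i n) ((hc i h).1 n)
    else pure 0
  let U : ι → Ultrafilter ℕ := (wellFounded_lt (α := ι)).fix step
  have hU : ∀ i, U i = step i fun j _ => U j := fun i => WellFounded.fix_eq _ _ _
  have hU1 : ∀ i, (Iio i).Nonempty →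
      U i = sum (Vof fun n => U (c i n)) fun n => U (c i n) := by
    intro i h
    rw [hU]
    exact dif_pos h
  have hU0 : ∀ i, ¬ (Iio i).Nonempty → U i = pure 0 := by
    intro i h
    rw [hU]
    exact dif_neg h
  have hmono : ∀ i, ∀ j ≤ i, RK (U j) (U i) := by
    intro i
    induction i using WellFoundedLT.induction with
    | ind i ih =>
      intro j hj
      rcases hj.lt_or_eq with hlt | rfl
      · have hne : (Iio i).Nonempty := ⟨j, hlt⟩
        obtain ⟨h1, h2, h3⟩ := hc i hne
        obtain ⟨N, hN⟩ := h3 j hlt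
        rw [hU1 i hne]
        have h4 := RK_bind (V := Vof fun n => U (c i n)) (z := fun n => U (c i n))
          (w := fun _ => U j) (by
            filter_upwards [gt_mem (hV1 (fun n => U (c i n))).1 N] with n hn
            exact ih (c i n) (h1 n) j (hN n (le_of_lt hn)))
        rwa [bind_const] at h4
      · exact RK.refl _
  refine ⟨U, ?_, fun i j hj => hmono i j hj, ?_⟩
  · intro i
    induction i using WellFoundedLT.induction with
    | ind i ih =>
      by_cases hne : (Iio i).Nonempty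
      · rw [hU1 i hne]
        exact (hV1 _).hausd_sum (fun n => ih _ ((hc i hne).1 n)) 
          (fun n f => hV2 (fun n => U (c i n)) n f)
      · rw [hU0 i hne]
        exact hausd_pure 0
  · intro i hne
    obtain ⟨h1, h2, h3⟩ := hc i hne
    refine ⟨Vof fun n => U (c i n), (hV1 _).1, ?_, ?_⟩
    · rw [hU1 i hne]
      exact RK_base
    · intro W j hj hW
      rw [hU1 i hne]
      obtain ⟨N, hN⟩ := h3 j hj
      apply RK_bind
      filter_upwards [gt_mem (hV1 (fun n => U (c i n))).1 N] with n hn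
      exact (hW n).trans (hmono _ _ (hN n (le_of_lt hn)))

end Pool.Agent.Lib.MP_77d395_lc
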