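import Mathlib

/-!
# Functional extensions and their S-topology
-/

open Set

universe u

namespace Pool.Agent.Lib.MP_77d395_lc

open scoped Classical in
/-- The function `χ_{φψ}`, with values in `{zero, one} ⊆ Z`: it is `one` at the points where
`φ` and `ψ` agree and `zero` elsewhere. -/
noncomputable def chiEq {Y Z : Type u} (zero one : Z) (φ ψ : Y → Z) : Y → Z :=
  fun y => if φ y = ψ y then one else zero

open scoped Classical in
/-- The characteristic function of `A ⊆ X`, with values in `{zero, one} ⊆ X`. -/
noncomputable def chi {X : Type u} (zero one : X) (A : Set X) : X → X :=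
  fun x => if x ∈ A then one else zero

/-- A functional extension of a set `X` with two distinguished elements `zero` and `one`: a proper
superset `*X` (a type `star` with an injection `emb` of `X` which is not surjective) and for each
`f : X → X` a function `ext f : *X → *X` extending `f`, with the properties (comp), (equ) and
(dir). -/
structure FunctionalExtension (X : Type u) (zero one : X) where
  /-- the superset `*X` -/
  star : Type u
  /-- the inclusion `X ⊆ *X` -/
  emb : X → star
  emb_injective : Function.Injective emb
  proper : ∃ ξ : star, ξ ∉ range emb
  /-- the function `*f` -/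
  ext : (X → X) → star → star
  ext_emb : ∀ (f : X → X) (x : X), ext f (emb x) = emb (f x)
  comp : ∀ f g : X → X, ext (g ∘ f) = ext g ∘ ext f
  equ : ∀ f g : X → X, ext (chiEq zero one f g) = chiEq (emb zero) (emb one) (ext f) (ext g)
  dir : ∀ ξ η : star, ∃ (p₁ p₂ : X → X) (ζ : star), ext p₁ ζ = ξ ∧ ext p₂ ζ = η

namespace FunctionalExtension

variable {X : Type u} {zero one : X} (E : FunctionalExtension X zero one)

/-- The extension `*A = {ξ ∈ *X : *χ_A (ξ) = 1}` of a set `A ⊆ X`. -/
def starSet (A : Set X) : Set E.star := {ξ | E.ext (chi zero one A) ξ = E.emb one}

/-- The S-topology on `*X`, generated by the sets `*A` for `A ⊆ X`. -/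
@[reducible] def sTopology : TopologicalSpace E.star :=
  TopologicalSpace.generateFrom {B | ∃ A : Set X, B = E.starSet A}

end FunctionalExtension

/-- A topological space is countably compact if it is Hausdorff and each countable open cover has a
finite subcover. -/
def CountablyCompact (Y : Type u) (t : TopologicalSpace Y) : Prop :=
  @T2Space Y t ∧ ∀ O : ℕ → Set Y, (∀ n, @IsOpen Y t (O n)) → ⋃ n, O n = univ →
    ∃ F : Finset ℕ, ⋃ n ∈ F, O n = univ

/-- A functional extension is countably compact if its S-topology is. -/
def FunctionalExtension.IsCountablyCompact {X : Type u} {zero one : X}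
    (E : FunctionalExtension X zero one) : Prop :=
  CountablyCompact E.star E.sTopology

end Pool.Agent.Lib.MP_77d395_lc
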