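import Mathlib
import Pool.Agent.Lib.MP_77d395_lc.Defs
import Pool.Agent.Lib.MP_77d395_lc.Chain

/-!
# The functional extension of `ℕ` given by a directed family of Hausdorff ultrafilters
-/

open Filter Set Cardinal

namespace Pool.Agent.Lib.MP_77d395_lc

section

variable {ι : Type} [LinearOrder ι] (U : ι → Ultrafilter ℕ)

/-- The ultrafilters below the chain. -/
abbrev Below : Type := {p : Ultrafilter ℕ // ∃ i, RK p (U i)}

variable {U}

lemma map_chiEq {p : Ultrafilter ℕ} (hp : Hausd p) (f g : ℕ → ℕ) :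
    (p.map f = p.map g → p.map (chiEq 0 1 f g) = pure 1) ∧
      (p.map f ≠ p.map g → p.map (chiEq 0 1 f g) = pure 0) := by
  constructor
  · intro h
    rw [map_eq_pure_iff]
    filter_upwards [hp f g h] with n hn
    simp [chiEq, hn]
  · intro h
    rw [map_eq_pure_iff]
    have h1 : ¬ ∀ᶠ n in (p : Filter ℕ), f n = g n := fun h' => h (map_congr h')
    have h2 : ∀ᶠ n in (p : Filter ℕ), f n ≠ g n := Ultrafilter.eventually_not.2 h1
    filter_upwards [h2] with n hn
    simp [chiEq, hn]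

/-- The functional extension consisting of all ultrafilters below a chain of Hausdorff
ultrafilters. -/
noncomputable def extOf (hH : ∀ i, Hausd (U i)) (hmono : ∀ i j, j ≤ i → RK (U j) (U i))
    (hne : Nonempty ι) (hnp : ∃ p : Below U, ∀ n, p.1 ≠ pure n) :
    FunctionalExtension ℕ 0 1 where
  star := Below U
  emb n := ⟨pure n, hne.some, fun _ => n, by
    rw [map_eq_pure_iff]; exact Eventually.of_forall fun _ => rfl⟩
  emb_injective a b hab := Ultrafilter.pure_injective (congrArg Subtype.val hab)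
  proper := by
    obtain ⟨p, hp⟩ := hnp
    refine ⟨p, ?_⟩
    rintro ⟨n, rfl⟩
    exact hp n rfl
  ext f p := ⟨p.1.map f, by
    obtain ⟨p, i, hi⟩ := p
    exact ⟨i, hi.map f⟩⟩
  ext_emb f x := Subtype.ext (Ultrafilter.map_pure f x)
  comp f g := by
    funext p
    apply Subtype.ext
    exact (Ultrafilter.map_map p.1 f g).symm
  equ f g := by
    funext p
    have hp : Hausd p.1 := by
      obtain ⟨i, hi⟩ := p.2
      exact (hH i).of_RK hi
    by_cases h : p.1.map f = p.1.map g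
    · simp only [chiEq, Subtype.mk.injEq, h, if_true]
      exact (map_chiEq hp f g).1 h
    · simp only [chiEq, Subtype.mk.injEq, h, if_false]
      exact (map_chiEq hp f g).2 h
  dir p q := by
    obtain ⟨p, i, f, rfl⟩ := p
    obtain ⟨q, j, g, rfl⟩ := q
    obtain ⟨f', hf'⟩ := hmono (max i j) i (le_max_left _ _)
    obtain ⟨g', hg'⟩ := hmono (max i j) j (le_max_right _ _)
    refine ⟨f ∘ f', g ∘ g', ⟨U (max i j), max i j, RK.refl _⟩, ?_, ?_⟩
    · apply Subtype.ext
      change (U (max i j)).map (f ∘ f') = _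
      rw [← Ultrafilter.map_map, hf']
    · apply Subtype.ext
      change (U (max i j)).map (g ∘ g') = _
      rw [← Ultrafilter.map_map, hg']

lemma mem_starSet_extOf (hH : ∀ i, Hausd (U i)) (hmono : ∀ i j, j ≤ i → RK (U j) (U i))
    (hne : Nonempty ι) (hnp : ∃ p : Below U, ∀ n, p.1 ≠ pure n) (A : Set ℕ) (p : Below U) :
    (show (extOf hH hmono hne hnp).star from p) ∈ (extOf hH hmono hne hnp).starSet A ↔
      A ∈ p.1 := by
  change (⟨p.1.map (chi 0 1 A), _⟩ : Below U) = ⟨pure 1, _⟩ ↔ _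
  rw [Subtype.mk.injEq, map_eq_pure_iff]
  constructor
  · intro h
    filter_upwards [h] with n hn
    by_contra hA
    simp [chi, hA] at hn
  · intro h
    filter_upwards [h] with n hn
    simp [chi, hn]

/-- Every point of an open set of the S-topology has a basic neighbourhood inside. -/
lemma exists_basic (hH : ∀ i, Hausd (U i)) (hmono : ∀ i j, j ≤ i → RK (U j) (U i))
    (hne : Nonempty ι) (hnp : ∃ p : Below U, ∀ n, p.1 ≠ pure n) (O : Set (Below U))
    (hO : @IsOpen (extOf hH hmono hne hnp).star (extOf hH hmono hne hnp).sTopology O)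
    (p : Below U) (hp : p ∈ O) : ∃ A ∈ p.1, ∀ q : Below U, A ∈ q.1 → q ∈ O := by
  induction hO with
  | basic s hs =>
    obtain ⟨A, rfl⟩ := hs
    refine ⟨A, (mem_starSet_extOf hH hmono hne hnp A p).1 hp, fun q hq => ?_⟩
    exact (mem_starSet_extOf hH hmono hne hnp A q).2 hq
  | univ => exact ⟨univ, univ_mem, fun q _ => mem_univ _⟩
  | inter s t _ _ ihs iht =>
    obtain ⟨A, hA, hA'⟩ := ihs hp.1
    obtain ⟨B, hB, hB'⟩ := iht hp.2
    exact ⟨A ∩ B, inter_mem hA hB, fun q hq =>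
      ⟨hA' q (mem_of_superset hq inter_subset_left), hB' q (mem_of_superset hq inter_subset_right)⟩⟩
  | sUnion S _ ih =>
    obtain ⟨s, hs, hps⟩ := hp
    obtain ⟨A, hA, hA'⟩ := ih s hs hps
    exact ⟨A, hA, fun q hq => ⟨s, hs, hA' q hq⟩⟩

lemma t2_extOf (hH : ∀ i, Hausd (U i)) (hmono : ∀ i j, j ≤ i → RK (U j) (U i))
    (hne : Nonempty ι) (hnp : ∃ p : Below U, ∀ n, p.1 ≠ pure n) :
    @T2Space (extOf hH hmono hne hnp).star (extOf hH hmono hne hnp).sTopology := by
  let _ := (extOf hH hmono hne hnp).sTopology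
  refine ⟨fun p q hpq => ?_⟩
  have h1 : (show Below U from p).1 ≠ (show Below U from q).1 := fun h => hpq (Subtype.ext h)
  obtain ⟨A, hA, hA'⟩ := exists_sep h1
  refine ⟨(extOf hH hmono hne hnp).starSet A, (extOf hH hmono hne hnp).starSet Aᶜ,
    TopologicalSpace.isOpen_generateFrom_of_mem ⟨A, rfl⟩,
    TopologicalSpace.isOpen_generateFrom_of_mem ⟨Aᶜ, rfl⟩,
    (mem_starSet_extOf hH hmono hne hnp A p).2 hA,
    (mem_starSet_extOf hH hmono hne hnp Aᶜ q).2 (Ultrafilter.compl_mem_iff_notMem.2 hA'), ?_⟩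
  rw [Set.disjoint_left]
  intro r hr hr'
  have h2 := (mem_starSet_extOf hH hmono hne hnp A r).1 hr
  have h3 := (mem_starSet_extOf hH hmono hne hnp Aᶜ r).1 hr'
  exact (Ultrafilter.compl_mem_iff_notMem.1 h3) h2

end

/-- Under the continuum hypothesis there is a countably compact functional extension of `ℕ`. -/
theorem exists_countablyCompact (hCH : (ℵ₁ : Cardinal.{0}) = 𝔠) :
    ∃ E : FunctionalExtension ℕ 0 1, E.IsCountablyCompact := by
  classical
  obtain ⟨ι, _, _, hι, hιc⟩ := exists_omega_one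
  obtain ⟨U, hH, hmono, hlim⟩ := exists_chain hCH hι
  have hne : Nonempty ι := by
    rw [← Cardinal.mk_ne_zero_iff, hιc]
    exact (Cardinal.aleph_pos 1).ne'
  -- countable sets are strictly bounded
  have hbd : ∀ s : ℕ → ι, ∃ i, ∃ j < i, ∀ n, s n ≤ j := by
    have hunc : ∀ C : Set ι, C.Countable → ∃ i, i ∉ C := by
      intro C hC
      by_contra hcon
      push Not at hcon
      have h1 : (univ : Set ι).Countable := hC.mono fun x _ => hcon x
      rw [← Cardinal.le_aleph0_iff_set_countable, Cardinal.mk_univ, hιc] at h1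
      exact absurd h1 (not_le.2 Cardinal.aleph0_lt_aleph_one)
    have hIic : ∀ j : ι, (Iic j).Countable := by
      intro j
      rw [← Iio_insert]
      exact (hι j).insert j
    intro s
    obtain ⟨j, hj⟩ := hunc (⋃ n, Iic (s n)) (countable_iUnion fun n => hIic (s n))
    obtain ⟨i, hi⟩ := hunc (Iic j) (hIic j)
    refine ⟨i, j, not_le.1 hi, fun n => ?_⟩
    by_contra hcon
    apply hj
    rw [mem_iUnion]
    exact ⟨n, (not_le.1 hcon).le⟩
  have hnp : ∃ p : Below U, ∀ n, p.1 ≠ pure n := by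
    obtain ⟨i, j, hji, -⟩ := hbd fun _ => hne.some
    obtain ⟨V, hV, hVU, -⟩ := hlim i ⟨j, hji⟩
    exact ⟨⟨V, i, hVU⟩, hV⟩
  refine ⟨extOf hH hmono hne hnp, t2_extOf hH hmono hne hnp, fun O hO hcov => ?_⟩
  by_contra hcon
  push Not at hcon
  have hW : ∀ n, ∃ W : Below U, ∀ m ≤ n, W ∉ O m := by
    intro n
    have h1 := hcon (Finset.range (n + 1))
    rw [Ne, Set.eq_univ_iff_forall] at h1
    push Not at h1
    obtain ⟨W, hW⟩ := h1
    refine ⟨W, fun m hm h2 => hW ?_⟩
    rw [mem_iUnion₂]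
    exact ⟨m, Finset.mem_range.2 (by omega), h2⟩
  choose W hW using hW
  choose s hs using fun n => (W n).2
  obtain ⟨i, j, hji, hj⟩ := hbd s
  obtain ⟨V, hV, -, hVW⟩ := hlim i ⟨j, hji⟩
  have hp := hVW (fun n => (W n).1) j hji fun n => (hs n).trans (hmono _ _ (hj n))
  let p : Below U := ⟨V.bind fun n => (W n).1, i, hp⟩
  have hpc : p ∈ ⋃ n, O n := by rw [hcov]; exact mem_univ _
  obtain ⟨m, hm⟩ := mem_iUnion.1 hpc
  obtain ⟨A, hA, hA'⟩ := exists_basic hH hmono hne hnp (O m) (hO m) p hm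
  have h1 : ∀ᶠ n in (V : Filter ℕ), A ∈ (W n).1 := hA
  obtain ⟨n, hn1, hn2⟩ := (h1.and (gt_mem hV m)).exists
  exact hW n m (le_of_lt hn2) (hA' (W n) hn1)

end Pool.Agent.Lib.MP_77d395_lc
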